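import Pool.Agent.H59.Cara

set_option autoImplicit false

open Metric Set

namespace Pool.Agent.Results.MP_eccde5_an.SharpPure

/-- The Carathéodory-type family `N_A` on the Euclidean unit ball of `ℂ²`, for
`A = diag(lam, 1)`: maps `h`, holomorphic on the open unit ball, with `h 0 = 0`, `Dh(0) = A` and
`Re ⟨h z, z⟩ > 0` for `z ≠ 0` in the ball. -/
def NA (lam : ℝ) : Set (EuclideanSpace ℂ (Fin 2) → EuclideanSpace ℂ (Fin 2)) :=
  {h | DifferentiableOn ℂ h (ball 0 1) ∧ h 0 = 0 ∧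
    (∀ v : EuclideanSpace ℂ (Fin 2), fderiv ℂ h 0 v = !₂[(lam : ℂ) * v 0, v 1]) ∧
    ∀ z ∈ ball (0 : EuclideanSpace ℂ (Fin 2)) 1, z ≠ 0 → 0 < (inner ℂ z (h z)).re}

/-- The coefficient `q¹_{0,k}` of `z₂ᵏ` in the first component of `h`: the `k`-th Taylor
coefficient at `0` of `w ↦ h₁(0, w)`. -/
noncomputable def q1 (h : EuclideanSpace ℂ (Fin 2) → EuclideanSpace ℂ (Fin 2)) (k : ℕ) : ℂ :=
  iteratedDeriv k (fun w : ℂ => (h !₂[0, w]) 0) 0 / k.factorial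

/-- The coefficient `q²_{k,0}` of `z₁ᵏ` in the second component of `h`: the `k`-th Taylor
coefficient at `0` of `w ↦ h₂(w, 0)`. -/
noncomputable def q2 (h : EuclideanSpace ℂ (Fin 2) → EuclideanSpace ℂ (Fin 2)) (k : ℕ) : ℂ :=
  iteratedDeriv k (fun w : ℂ => (h !₂[w, 0]) 1) 0 / k.factorial

/-- The optimal value of `|z₁|²` on the unit sphere for the first problem. -/
noncomputable def uOpt (lam : ℝ) (k : ℕ) : ℝ :=
  2 / ((k + lam) + √((k + lam) ^ 2 + 4 * (lam - 1) * (k - 1)))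

/-- The optimal value of `|z₂|²` on the unit sphere for the second problem. -/
noncomputable def vOpt (lam : ℝ) (k : ℕ) : ℝ :=
  2 * lam / ((k * lam + 1) + √((k * lam + 1) ^ 2 - 4 * lam * (lam - 1) * (k - 1)))

/-- The sharp bound for `q¹_{0,k}`. -/
noncomputable def bound1 (lam : ℝ) (k : ℕ) : ℝ :=
  (1 + (lam - 1) * uOpt lam k) / (√(uOpt lam k) * √(1 - uOpt lam k) ^ k)

/-- The sharp bound for `q²_{k,0}`. -/
noncomputable def bound2 (lam : ℝ) (k : ℕ) : ℝ :=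
  (lam - (lam - 1) * vOpt lam k) / (√(vOpt lam k) * √(1 - vOpt lam k) ^ k)

/-! ### The optimal points -/

lemma uOpt_pos (lam : ℝ) (h1 : 1 ≤ lam) (k : ℕ) : 0 < uOpt lam k := by
  unfold uOpt
  positivity

lemma uOpt_eq (lam : ℝ) (h1 : 1 ≤ lam) (k : ℕ) (hk : 2 ≤ k) :
    (lam - 1) * (k - 1) * (uOpt lam k) ^ 2 + ((lam - 1) + k + 1) * (uOpt lam k) - 1 = 0 := by
  have hk' : (2 : ℝ) ≤ k := by exact_mod_cast hk
  unfold uOpt
  set s : ℝ := √((k + lam) ^ 2 + 4 * (lam - 1) * (k - 1)) with hs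
  have hs2 : s ^ 2 = (k + lam) ^ 2 + 4 * (lam - 1) * (k - 1) := by
    rw [hs, Real.sq_sqrt]
    have : 0 ≤ (lam - 1) * ((k : ℝ) - 1) := mul_nonneg (by linarith) (by linarith)
    nlinarith [sq_nonneg ((k : ℝ) + lam)]
  have hs0 : 0 ≤ s := Real.sqrt_nonneg _
  have hden : (k + lam) + s ≠ 0 := by positivity
  field_simp
  linear_combination (-1 : ℝ) * hs2

lemma uOpt_lt (lam : ℝ) (h1 : 1 ≤ lam) (k : ℕ) (hk : 2 ≤ k) : uOpt lam k < 1 := by
  have hk' : (2 : ℝ) ≤ k := by exact_mod_cast hk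
  have h2 := uOpt_eq lam h1 k hk
  have h3 := uOpt_pos lam h1 k
  have h4 : 0 ≤ (lam - 1) * (k - 1) * (uOpt lam k) ^ 2 :=
    mul_nonneg (mul_nonneg (by linarith) (by linarith)) (sq_nonneg _)
  nlinarith

lemma vOpt_s (lam : ℝ) (h1 : 1 ≤ lam) (h2 : lam < 2) (k : ℕ) (hk : 2 ≤ k) :
    (k * lam - 1) ^ 2 ≤ (k * lam + 1) ^ 2 - 4 * lam * (lam - 1) * (k - 1) := by
  have hk' : (2 : ℝ) ≤ k := by exact_mod_cast hk
  have : (lam - 1) * (k - 1) ≤ k := by nlinarith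
  have h3 : lam * ((lam - 1) * (k - 1)) ≤ lam * k := mul_le_mul_of_nonneg_left this (by linarith)
  nlinarith

lemma vOpt_pos (lam : ℝ) (h1 : 1 ≤ lam) (k : ℕ) : 0 < vOpt lam k := by
  unfold vOpt
  positivity

lemma vOpt_eq (lam : ℝ) (h1 : 1 ≤ lam) (h2 : lam < 2) (k : ℕ) (hk : 2 ≤ k) :
    (lam - 1) * (k - 1) * (vOpt lam k) ^ 2 - (k * lam + 1) * (vOpt lam k) + lam = 0 := by
  have hk' : (2 : ℝ) ≤ k := by exact_mod_cast hk
  have h3 := vOpt_s lam h1 h2 k hk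
  unfold vOpt
  set s : ℝ := √((k * lam + 1) ^ 2 - 4 * lam * (lam - 1) * (k - 1)) with hs
  have hs2 : s ^ 2 = (k * lam + 1) ^ 2 - 4 * lam * (lam - 1) * (k - 1) := by
    rw [hs, Real.sq_sqrt]
    exact (sq_nonneg _).trans h3
  have hs0 : 0 ≤ s := Real.sqrt_nonneg _
  have hden : (k * lam + 1) + s ≠ 0 := by positivity
  field_simp
  linear_combination lam * hs2

lemma vOpt_le (lam : ℝ) (h1 : 1 ≤ lam) (h2 : lam < 2) (k : ℕ) (hk : 2 ≤ k) :
    k * vOpt lam k ≤ 1 := by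
  have hk' : (2 : ℝ) ≤ k := by exact_mod_cast hk
  have h3 := vOpt_s lam h1 h2 k hk
  unfold vOpt
  have h4 : k * lam - 1 ≤ √((k * lam + 1) ^ 2 - 4 * lam * (lam - 1) * (k - 1)) :=
    Real.le_sqrt_of_sq_le h3
  rw [← mul_div_assoc, div_le_one (by positivity)]
  linarith

/-! ### Product coordinates -/

lemma mem_ball_iff (z : EuclideanSpace ℂ (Fin 2)) :
    z ∈ ball (0 : EuclideanSpace ℂ (Fin 2)) 1 ↔ ‖z 0‖ ^ 2 + ‖z 1‖ ^ 2 < 1 := by
  rw [mem_ball_zero_iff, EuclideanSpace.norm_eq, Fin.sum_univ_two]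
  rw [Real.sqrt_lt' one_pos, one_pow]

/-- `(u, w) ↦ (u, w)`. -/
noncomputable def emb1 : ℂ × ℂ →L[ℂ] EuclideanSpace ℂ (Fin 2) :=
  (EuclideanSpace.equiv (Fin 2) ℂ).symm.toContinuousLinearMap ∘L
    (ContinuousLinearMap.pi ![ContinuousLinearMap.fst ℂ ℂ ℂ, ContinuousLinearMap.snd ℂ ℂ ℂ])

/-- `(u, w) ↦ (w, u)`. -/
noncomputable def emb2 : ℂ × ℂ →L[ℂ] EuclideanSpace ℂ (Fin 2) :=
  (EuclideanSpace.equiv (Fin 2) ℂ).symm.toContinuousLinearMap ∘L
    (ContinuousLinearMap.pi ![ContinuousLinearMap.snd ℂ ℂ ℂ, ContinuousLinearMap.fst ℂ ℂ ℂ])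

lemma emb1_apply (p : ℂ × ℂ) : emb1 p = !₂[p.1, p.2] := by
  ext i
  fin_cases i <;> simp [emb1]

lemma emb2_apply (p : ℂ × ℂ) : emb2 p = !₂[p.2, p.1] := by
  ext i
  fin_cases i <;> simp [emb2]

lemma fderiv_comp_emb (h : EuclideanSpace ℂ (Fin 2) → EuclideanSpace ℂ (Fin 2))
    (hh : DifferentiableAt ℂ h 0) (e : ℂ × ℂ →L[ℂ] EuclideanSpace ℂ (Fin 2)) (i : Fin 2)
    (v : ℂ × ℂ) : fderiv ℂ (fun p => (h (e p)) i) 0 v = (fderiv ℂ h 0 (e v)) i := by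
  have h1 : HasFDerivAt h (fderiv ℂ h 0) (e 0) := by
    rw [map_zero]; exact hh.hasFDerivAt
  have h2 := h1.comp (0 : ℂ × ℂ) e.hasFDerivAt
  have h3 := ((EuclideanSpace.proj i : EuclideanSpace ℂ (Fin 2) →L[ℂ] ℂ).hasFDerivAt).comp
    (0 : ℂ × ℂ) h2
  have h4 := h3.fderiv
  have h5 : (fun p => (h (e p)) i) = (⇑(EuclideanSpace.proj i : EuclideanSpace ℂ (Fin 2) →L[ℂ] ℂ) ∘
      h ∘ ⇑e) := rfl
  rw [h5, h4]
  rfl

lemma differentiableOn_comp_emb (h : EuclideanSpace ℂ (Fin 2) → EuclideanSpace ℂ (Fin 2))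
    (hh : DifferentiableOn ℂ h (ball 0 1)) (e : ℂ × ℂ →L[ℂ] EuclideanSpace ℂ (Fin 2))
    (he : ∀ p ∈ H59.Cara.D, e p ∈ ball (0 : EuclideanSpace ℂ (Fin 2)) 1) (i : Fin 2) :
    DifferentiableOn ℂ (fun p => (h (e p)) i) H59.Cara.D := by
  have h1 : DifferentiableOn ℂ (h ∘ e) H59.Cara.D :=
    hh.comp e.differentiable.differentiableOn he
  exact (EuclideanSpace.proj i : EuclideanSpace ℂ (Fin 2) →L[ℂ] ℂ).differentiable.comp_differentiableOn h1

lemma inner_re (z w : EuclideanSpace ℂ (Fin 2)) :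
    inner ℂ z w = starRingEnd ℂ (z 0) * w 0 + starRingEnd ℂ (z 1) * w 1 := by
  rw [PiLp.inner_apply, Fin.sum_univ_two]
  simp only [RCLike.inner_apply]
  ring

lemma upper1 (lam : ℝ) (h1 : 1 ≤ lam) (k : ℕ) (hk : 2 ≤ k)
    (h : EuclideanSpace ℂ (Fin 2) → EuclideanSpace ℂ (Fin 2)) (hh : h ∈ NA lam) :
    ‖q1 h k‖ ≤ bound1 lam k := by
  obtain ⟨hd, h0, hD, hpos⟩ := hh
  have hdiff : DifferentiableAt ℂ h 0 := hd.differentiableAt (ball_mem_nhds 0 one_pos)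
  have he : ∀ p ∈ H59.Cara.D, emb1 p ∈ ball (0 : EuclideanSpace ℂ (Fin 2)) 1 := by
    intro p hp
    rw [mem_ball_iff, emb1_apply]
    have hp' : ‖p.1‖ ^ 2 + ‖p.2‖ ^ 2 < 1 := hp
    simpa using hp'
  have hu0 := uOpt_pos lam h1 k
  have hu1 := uOpt_lt lam h1 k hk
  have key := H59.Cara.coeff_ineq_sphere (fun p => (h (emb1 p)) 0) (fun p => (h (emb1 p)) 1)
    (differentiableOn_comp_emb h hd emb1 he 0) (differentiableOn_comp_emb h hd emb1 he 1)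
    lam 1 (by linarith) (by norm_num)
    (by intro v; rw [fderiv_comp_emb h hdiff, hD, emb1_apply]; simp)
    (by intro v; rw [fderiv_comp_emb h hdiff, hD, emb1_apply]; simp)
    (by
      intro p hp hp0
      have hne : emb1 p ≠ 0 := by
        intro h3
        rw [emb1_apply] at h3
        apply hp0
        have e0 := congrArg (fun z : EuclideanSpace ℂ (Fin 2) => z 0) h3
        have e1 := congrArg (fun z : EuclideanSpace ℂ (Fin 2) => z 1) h3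
        simp at e0 e1
        exact Prod.ext e0 e1
      have h4 := hpos (emb1 p) (he p hp) hne
      rw [inner_re] at h4
      have e0 : (emb1 p) 0 = p.1 := by rw [emb1_apply]; simp
      have e1 : (emb1 p) 1 = p.2 := by rw [emb1_apply]; simp
      rw [e0, e1] at h4
      exact h4)
    k hk (√(uOpt lam k)) (√(1 - uOpt lam k)) (Real.sqrt_pos.mpr hu0)
    (Real.sqrt_pos.mpr (by linarith))
    (by rw [Real.sq_sqrt hu0.le, Real.sq_sqrt (by linarith)]; ring)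
  rw [Real.sq_sqrt hu0.le, Real.sq_sqrt (by linarith)] at key
  have hq : ‖q1 h k‖ = ‖iteratedDeriv k (fun w : ℂ => (h (emb1 (0, w))) 0) 0 / k.factorial‖ := by
    unfold q1
    simp only [emb1_apply]
  rw [bound1, le_div_iff₀ (mul_pos (Real.sqrt_pos.mpr hu0)
    (pow_pos (Real.sqrt_pos.mpr (by linarith)) _)), hq]
  calc _ ≤ lam * uOpt lam k + 1 * (1 - uOpt lam k) := key
    _ = _ := by ring

lemma upper2 (lam : ℝ) (h1 : 1 ≤ lam) (h2 : lam < 2) (k : ℕ) (hk : 2 ≤ k)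
    (h : EuclideanSpace ℂ (Fin 2) → EuclideanSpace ℂ (Fin 2)) (hh : h ∈ NA lam) :
    ‖q2 h k‖ ≤ bound2 lam k := by
  obtain ⟨hd, h0, hD, hpos⟩ := hh
  have hdiff : DifferentiableAt ℂ h 0 := hd.differentiableAt (ball_mem_nhds 0 one_pos)
  have he : ∀ p ∈ H59.Cara.D, emb2 p ∈ ball (0 : EuclideanSpace ℂ (Fin 2)) 1 := by
    intro p hp
    rw [mem_ball_iff, emb2_apply]
    have hp' : ‖p.1‖ ^ 2 + ‖p.2‖ ^ 2 < 1 := hp
    simp
    linarith
  have hk' : (2 : ℝ) ≤ k := by exact_mod_cast hk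
  have hv0 := vOpt_pos lam h1 k
  have hv1 : vOpt lam k < 1 := by
    have := vOpt_le lam h1 h2 k hk
    nlinarith
  have key := H59.Cara.coeff_ineq_sphere (fun p => (h (emb2 p)) 1) (fun p => (h (emb2 p)) 0)
    (differentiableOn_comp_emb h hd emb2 he 1) (differentiableOn_comp_emb h hd emb2 he 0)
    1 lam (by norm_num) (by linarith)
    (by intro v; rw [fderiv_comp_emb h hdiff, hD, emb2_apply]; simp)
    (by intro v; rw [fderiv_comp_emb h hdiff, hD, emb2_apply]; simp)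
    (by
      intro p hp hp0
      have hne : emb2 p ≠ 0 := by
        intro h3
        rw [emb2_apply] at h3
        apply hp0
        have e0 := congrArg (fun z : EuclideanSpace ℂ (Fin 2) => z 0) h3
        have e1 := congrArg (fun z : EuclideanSpace ℂ (Fin 2) => z 1) h3
        simp at e0 e1
        exact Prod.ext e1 e0
      have h4 := hpos (emb2 p) (he p hp) hne
      rw [inner_re] at h4
      have e0 : (emb2 p) 0 = p.2 := by rw [emb2_apply]; simp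
      have e1 : (emb2 p) 1 = p.1 := by rw [emb2_apply]; simp
      rw [e0, e1, add_comm] at h4
      exact h4)
    k hk (√(vOpt lam k)) (√(1 - vOpt lam k)) (Real.sqrt_pos.mpr hv0)
    (Real.sqrt_pos.mpr (by linarith))
    (by rw [Real.sq_sqrt hv0.le, Real.sq_sqrt (by linarith)]; ring)
  rw [Real.sq_sqrt hv0.le, Real.sq_sqrt (by linarith)] at key
  have hq : ‖q2 h k‖ = ‖iteratedDeriv k (fun w : ℂ => (h (emb2 (0, w))) 1) 0 / k.factorial‖ := by
    unfold q2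
    simp only [emb2_apply]
  rw [bound2, le_div_iff₀ (mul_pos (Real.sqrt_pos.mpr hv0)
    (pow_pos (Real.sqrt_pos.mpr (by linarith)) _)), hq]
  calc _ ≤ 1 * vOpt lam k + lam * (1 - vOpt lam k) := key
    _ = _ := by ring

/-! ### The extremal maps -/

/-- `(lam z₁ + B₁ z₂ᵏ, z₂ + B₂ z₁ᵏ)`. -/
noncomputable def ext (lam B1 B2 : ℝ) (k : ℕ) :
    EuclideanSpace ℂ (Fin 2) → EuclideanSpace ℂ (Fin 2) := fun z =>
  !₂[(lam : ℂ) * z 0 + B1 * z 1 ^ k, z 1 + B2 * z 0 ^ k]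

lemma ext_mem (lam B1 B2 : ℝ) (k : ℕ) (hk : 2 ≤ k)
    (hB : ∀ z : EuclideanSpace ℂ (Fin 2), z ∈ ball (0 : EuclideanSpace ℂ (Fin 2)) 1 → z ≠ 0 →
      0 < lam * ‖z 0‖ ^ 2 + ‖z 1‖ ^ 2 - |B1| * (‖z 0‖ * ‖z 1‖ ^ k) - |B2| * (‖z 1‖ * ‖z 0‖ ^ k)) :
    ext lam B1 B2 k ∈ NA lam := by
  have hc0 : ∀ z : EuclideanSpace ℂ (Fin 2), HasFDerivAt (fun z : EuclideanSpace ℂ (Fin 2) => z 0)
      (EuclideanSpace.proj 0 : EuclideanSpace ℂ (Fin 2) →L[ℂ] ℂ) z := fun z =>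
    (EuclideanSpace.proj 0 : EuclideanSpace ℂ (Fin 2) →L[ℂ] ℂ).hasFDerivAt
  have hc1 : ∀ z : EuclideanSpace ℂ (Fin 2), HasFDerivAt (fun z : EuclideanSpace ℂ (Fin 2) => z 1)
      (EuclideanSpace.proj 1 : EuclideanSpace ℂ (Fin 2) →L[ℂ] ℂ) z := fun z =>
    (EuclideanSpace.proj 1 : EuclideanSpace ℂ (Fin 2) →L[ℂ] ℂ).hasFDerivAt
  have hdiff : Differentiable ℂ (ext lam B1 B2 k) := by
    intro z
    rw [differentiableAt_euclidean]
    intro i
    fin_cases i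
    · simp only [ext]
      exact ((hc0 z).differentiableAt.const_mul _).add (((hc1 z).differentiableAt.pow k).const_mul _)
    · simp only [ext]
      exact ((hc1 z).differentiableAt).add (((hc0 z).differentiableAt.pow k).const_mul _)
  refine ⟨hdiff.differentiableOn, ?_, ?_, ?_⟩
  · ext i
    fin_cases i <;> simp [ext, zero_pow (by omega : k ≠ 0)]
  · intro v
    have hcomp : ∀ i : Fin 2, (fderiv ℂ (ext lam B1 B2 k) 0 v) i =
        fderiv ℂ (fun z => (ext lam B1 B2 k z) i) 0 v := by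
      intro i
      have h3 := ((EuclideanSpace.proj i : EuclideanSpace ℂ (Fin 2) →L[ℂ] ℂ).hasFDerivAt).comp
        (0 : EuclideanSpace ℂ (Fin 2)) (hdiff 0).hasFDerivAt
      have h4 := h3.fderiv
      have h5 : (fun p => (ext lam B1 B2 k p) i) =
          (⇑(EuclideanSpace.proj i : EuclideanSpace ℂ (Fin 2) →L[ℂ] ℂ) ∘ ext lam B1 B2 k) := rfl
      rw [h5, h4]
      rfl
    have hz : (0 : ℂ) ^ (k - 1) = 0 := zero_pow (by omega)
    ext i
    rw [hcomp]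
    fin_cases i
    · have h6 : HasFDerivAt (fun z : EuclideanSpace ℂ (Fin 2) => (ext lam B1 B2 k z) 0) _ 0 :=
        ((hc0 0).const_mul (lam : ℂ)).add (((hc1 0).pow k).const_mul (B1 : ℂ))
      simp only [Fin.zero_eta, Fin.isValue]
      rw [h6.fderiv]
      simp [hz]
    · have h6 : HasFDerivAt (fun z : EuclideanSpace ℂ (Fin 2) => (ext lam B1 B2 k z) 1) _ 0 :=
        (hc1 0).add (((hc0 0).pow k).const_mul (B2 : ℂ))
      simp only [Fin.mk_one, Fin.isValue]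
      rw [h6.fderiv]
      simp [hz]
  · intro z hz hz0
    have h1 := hB z hz hz0
    rw [inner_re]
    have e0 : (ext lam B1 B2 k z) 0 = (lam : ℂ) * z 0 + B1 * z 1 ^ k := rfl
    have e1 : (ext lam B1 B2 k z) 1 = z 1 + B2 * z 0 ^ k := rfl
    rw [e0, e1]
    have h2 : starRingEnd ℂ (z 0) * ((lam : ℂ) * z 0 + B1 * z 1 ^ k) +
        starRingEnd ℂ (z 1) * (z 1 + B2 * z 0 ^ k) =
        ((lam * ‖z 0‖ ^ 2 + ‖z 1‖ ^ 2 : ℝ) : ℂ) + starRingEnd ℂ (z 0) * (B1 * z 1 ^ k) +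
          starRingEnd ℂ (z 1) * (B2 * z 0 ^ k) := by
      have e2 : ∀ w : ℂ, starRingEnd ℂ w * w = ((‖w‖ ^ 2 : ℝ) : ℂ) := by
        intro w
        rw [mul_comm, Complex.mul_conj, Complex.normSq_eq_norm_sq]
      push_cast at e2 ⊢
      linear_combination (lam : ℂ) * e2 (z 0) + e2 (z 1)
    rw [h2, Complex.add_re, Complex.add_re, Complex.ofReal_re]
    have h3 : ∀ (a b : ℂ) (B : ℝ) (k : ℕ),
        -(|B| * (‖a‖ * ‖b‖ ^ k)) ≤ (starRingEnd ℂ a * (B * b ^ k)).re := by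
      intro a b B k
      have := Complex.abs_re_le_norm (starRingEnd ℂ a * (B * b ^ k))
      rw [norm_mul, norm_mul, norm_pow, RCLike.norm_conj, Complex.norm_real, Real.norm_eq_abs]
        at this
      have h4 := (abs_le.mp this).1
      calc -(|B| * (‖a‖ * ‖b‖ ^ k)) = -(‖a‖ * (|B| * ‖b‖ ^ k)) := by ring
        _ ≤ _ := h4
    have h4 := h3 (z 0) (z 1) B1 k
    have h5 := h3 (z 1) (z 0) B2 k
    linarith

lemma q1_ext (lam B1 B2 : ℝ) (k : ℕ) : q1 (ext lam B1 B2 k) k = B1 := by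
  unfold q1
  have h1 : (fun w : ℂ => (ext lam B1 B2 k !₂[0, w]) 0) = fun w : ℂ => (B1 : ℂ) * w ^ k := by
    funext w
    simp [ext]
  rw [h1, iteratedDeriv_const_mul_field, iteratedDeriv_fun_pow_zero, if_pos rfl]
  have : (k.factorial : ℂ) ≠ 0 := by exact_mod_cast k.factorial_ne_zero
  field_simp

lemma q2_ext (lam B1 B2 : ℝ) (k : ℕ) : q2 (ext lam B1 B2 k) k = B2 := by
  unfold q2
  have h1 : (fun w : ℂ => (ext lam B1 B2 k !₂[w, 0]) 1) = fun w : ℂ => (B2 : ℂ) * w ^ k := by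
    funext w
    simp [ext]
  rw [h1, iteratedDeriv_const_mul_field, iteratedDeriv_fun_pow_zero, if_pos rfl]
  have : (k.factorial : ℂ) ≠ 0 := by exact_mod_cast k.factorial_ne_zero
  field_simp

lemma bound1_nonneg (lam : ℝ) (h1 : 1 ≤ lam) (k : ℕ) : 0 ≤ bound1 lam k := by
  unfold bound1
  have hu0 := uOpt_pos lam h1 k
  have : 0 ≤ (lam - 1) * uOpt lam k := mul_nonneg (by linarith) hu0.le
  positivity

lemma bound2_nonneg (lam : ℝ) (h1 : 1 ≤ lam) (h2 : lam < 2) (k : ℕ) (hk : 2 ≤ k) :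
    0 ≤ bound2 lam k := by
  unfold bound2
  have hk' : (2 : ℝ) ≤ k := by exact_mod_cast hk
  have hv0 := vOpt_pos lam h1 k
  have hv1 := vOpt_le lam h1 h2 k hk
  have : 0 ≤ lam - (lam - 1) * vOpt lam k := by nlinarith
  positivity

lemma bound1_opt (lam : ℝ) (h1 : 1 ≤ lam) (k : ℕ) (hk : 2 ≤ k) (t : ℝ) (ht0 : 0 ≤ t)
    (ht1 : t ≤ 1) :
    (bound1 lam k) ^ 2 * (t * (1 - t) ^ k) ≤ (lam * t + 1 * (1 - t)) ^ 2 := by
  have hu0 := uOpt_pos lam h1 k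
  have hu1 := uOpt_lt lam h1 k hk
  have h := H59.Cara.opt_one (lam - 1) (by linarith) k hk (uOpt lam k) hu0
    (uOpt_eq lam h1 k hk) t ht0 ht1
  have hden : 0 < uOpt lam k * (1 - uOpt lam k) ^ k := mul_pos hu0 (pow_pos (by linarith) _)
  have h2 : (bound1 lam k) ^ 2 = (1 + (lam - 1) * uOpt lam k) ^ 2 /
      (uOpt lam k * (1 - uOpt lam k) ^ k) := by
    rw [bound1, div_pow, mul_pow, ← pow_mul, mul_comm k 2, pow_mul, Real.sq_sqrt hu0.le,
      Real.sq_sqrt (by linarith)]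
  rw [h2, div_mul_eq_mul_div, div_le_iff₀ hden]
  have h3 : lam * t + 1 * (1 - t) = 1 + (lam - 1) * t := by ring
  rw [h3]
  exact h

lemma bound2_opt (lam : ℝ) (h1 : 1 ≤ lam) (h2 : lam < 2) (k : ℕ) (hk : 2 ≤ k) (t : ℝ)
    (ht0 : 0 ≤ t) (ht1 : t ≤ 1) :
    (bound2 lam k) ^ 2 * (t * (1 - t) ^ k) ≤ (1 * t + lam * (1 - t)) ^ 2 := by
  have hk' : (2 : ℝ) ≤ k := by exact_mod_cast hk
  have hv0 := vOpt_pos lam h1 k
  have hkv := vOpt_le lam h1 h2 k hk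
  have hv1 : vOpt lam k < 1 := by nlinarith
  have h := H59.Cara.opt_two lam h1 k hk (vOpt lam k) hv0 hkv (vOpt_eq lam h1 h2 k hk) t ht0 ht1
  have hden : 0 < vOpt lam k * (1 - vOpt lam k) ^ k := mul_pos hv0 (pow_pos (by linarith) _)
  have h2 : (bound2 lam k) ^ 2 = (lam - (lam - 1) * vOpt lam k) ^ 2 /
      (vOpt lam k * (1 - vOpt lam k) ^ k) := by
    rw [bound2, div_pow, mul_pow, ← pow_mul, mul_comm k 2, pow_mul, Real.sq_sqrt hv0.le,
      Real.sq_sqrt (by linarith)]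
  rw [h2, div_mul_eq_mul_div, div_le_iff₀ hden]
  have h3 : 1 * t + lam * (1 - t) = lam - (lam - 1) * t := by ring
  rw [h3]
  exact h

lemma norms_of_mem (z : EuclideanSpace ℂ (Fin 2)) (hz0 : z ≠ 0) : 0 < ‖z 0‖ ^ 2 + ‖z 1‖ ^ 2 := by
  by_contra hcon
  have h0 : ‖z 0‖ = 0 := by nlinarith [norm_nonneg (z 0), norm_nonneg (z 1)]
  have h1 : ‖z 1‖ = 0 := by nlinarith [norm_nonneg (z 0), norm_nonneg (z 1)]
  apply hz0
  ext i
  fin_cases i
  · simpa using h0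
  · simpa using h1

/-- The sharp bounds for the off-diagonal pure coefficients in the class `N_A`,
`A = diag(lam, 1)`, `1 ≤ lam < 2`: for every `k ≥ 2` the maximum of `|q¹_{0,k}|` is
`bound1 lam k` and the maximum of `|q²_{k,0}|` is `bound2 lam k`. -/
theorem result (lam : ℝ) (h1 : 1 ≤ lam) (h2 : lam < 2) (k : ℕ) (hk : 2 ≤ k) :
    IsGreatest {c : ℝ | ∃ h ∈ NA lam, c = ‖q1 h k‖} (bound1 lam k) ∧
    IsGreatest {c : ℝ | ∃ h ∈ NA lam, c = ‖q2 h k‖} (bound2 lam k) := by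
  have hb1 := bound1_nonneg lam h1 k
  have hb2 := bound2_nonneg lam h1 h2 k hk
  refine ⟨⟨⟨ext lam (bound1 lam k) 0 k, ?_, ?_⟩, ?_⟩, ⟨⟨ext lam 0 (bound2 lam k) k, ?_, ?_⟩, ?_⟩⟩
  · apply ext_mem _ _ _ _ hk
    intro z hz hz0
    have h3 := H59.Cara.strict_of_opt lam 1 (bound1 lam k) (by linarith) one_pos k hk
      (bound1_opt lam h1 k hk) ‖z 0‖ ‖z 1‖ (norm_nonneg _) (norm_nonneg _) (norms_of_mem z hz0)
      ((mem_ball_iff z).mp hz)
    rw [abs_of_nonneg hb1, abs_zero]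
    linarith
  · rw [q1_ext, Complex.norm_real, Real.norm_eq_abs, abs_of_nonneg hb1]
  · rintro c ⟨h, hh, rfl⟩
    exact upper1 lam h1 k hk h hh
  · apply ext_mem _ _ _ _ hk
    intro z hz hz0
    have h4 := (mem_ball_iff z).mp hz
    have h5 := norms_of_mem z hz0
    have h3 := H59.Cara.strict_of_opt 1 lam (bound2 lam k) one_pos (by linarith) k hk
      (bound2_opt lam h1 h2 k hk) ‖z 1‖ ‖z 0‖ (norm_nonneg _) (norm_nonneg _) (by linarith)
      (by linarith)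
    rw [abs_of_nonneg hb2, abs_zero]
    linarith
  · rw [q2_ext, Complex.norm_real, Real.norm_eq_abs, abs_of_nonneg hb2]
  · rintro c ⟨h, hh, rfl⟩
    exact upper2 lam h1 h2 k hk h hh

end Pool.Agent.Results.MP_eccde5_an.SharpPure
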